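import Pool.Agent.H77.TL.Stm

/-!
Crew TL, part TPL: the two point lemma.
-/

set_option autoImplicit false

namespace Pool.MP324

open Set

theorem TPL_quad {A B C : ℝ} (h : ∀ z : ℝ, 0 ≤ z → 0 ≤ A * z ^ 2 + B * z + C) : 0 ≤ A := by
  by_contra hA
  push Not at hA
  have hA' : 0 < -A := by linarith
  set z : ℝ := (|B| + |C| + 1) / (-A) + 1 with hz
  have hz0 : 0 ≤ (|B| + |C| + 1) / (-A) := by positivity
  have hz1 : 1 ≤ z := by linarith
  have h1 := h z (by linarith)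
  have h2 : A * z = -(|B| + |C| + 1) + A := by
    have h20 : A * ((|B| + |C| + 1) / (-A)) = -(|B| + |C| + 1) := by
      rw [div_neg, mul_neg, mul_div_cancel₀ _ hA.ne]
    rw [hz, mul_add, h20, mul_one]
  have h3 : B * z ≤ |B| * z := mul_le_mul_of_nonneg_right (le_abs_self B) (by linarith)
  have h4 : C ≤ |C| * z := by
    have := le_abs_self C
    have h5 : |C| * 1 ≤ |C| * z := mul_le_mul_of_nonneg_left hz1 (abs_nonneg C)
    linarith
  have h6 : A * z ^ 2 = (A * z) * z := by ring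
  rw [h6, h2] at h1
  nlinarith

theorem TPL_fyy (h1 : S_N1) {m y : ℝ} (hm : 0 < m) (hy : 0 < y) (hy1 : y < 1)
    (hy2 : y ≤ (2:ℝ) ^ m - 1) : 0 ≤ fyy m y :=
  TPL_quad (fun z hz => h1 m y z hm hy hy1 hy2 hz)

theorem TPL_f_zero (m : ℝ) : f m 0 = 0 := by
  unfold f J q lp lm
  simp

theorem TPL_fy_zero (m : ℝ) : fy m 0 = 0 := by
  unfold fy Jy qy ap am lp lm
  simp

theorem TPL_dy (hf : S_CALf) {m y : ℝ} (hm : 0 ≤ m) (hy : |y| < 1) :
    HasDerivAt (fun y => f m y) (fy m y) y := by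
  have := hf (fun _ => m) (fun y => y) 0 1 y (hasDerivAt_const y m) (hasDerivAt_id y) hm hy
  simpa using this

theorem TPL_dyy (hf : S_CALy) {m y : ℝ} (hm : 0 ≤ m) (hy : |y| < 1) :
    HasDerivAt (fun y => fy m y) (fyy m y) y := by
  have := hf (fun _ => m) (fun y => y) 0 1 y (hasDerivAt_const y m) (hasDerivAt_id y) hm hy
  simpa using this

/-- `fy` is monotone in `y` -/
theorem TPL_fy_mono (hy : S_CALy) (h1 : S_N1) {m a b : ℝ} (hm : 0 < m) (ha : 0 ≤ a) (hab : a ≤ b)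
    (hb1 : b < 1) (hb2 : b ≤ (2:ℝ) ^ m - 1) : fy m a ≤ fy m b := by
  have hmono : MonotoneOn (fun y => fy m y) (Icc a b) := by
    apply monotoneOn_of_deriv_nonneg (convex_Icc a b)
    · intro y hyI
      have h2 : |y| < 1 := by
        rw [abs_of_nonneg (by linarith [hyI.1])]
        linarith [hyI.2]
      exact (TPL_dyy hy hm.le h2).continuousAt.continuousWithinAt
    · intro y hyI
      rw [interior_Icc] at hyI
      have h2 : |y| < 1 := by
        rw [abs_of_nonneg (by linarith [hyI.1])]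
        linarith [hyI.2]
      exact (TPL_dyy hy hm.le h2).differentiableAt.differentiableWithinAt
    · intro y hyI
      rw [interior_Icc] at hyI
      have h2 : |y| < 1 := by
        rw [abs_of_nonneg (by linarith [hyI.1])]
        linarith [hyI.2]
      rw [(TPL_dyy hy hm.le h2).deriv]
      exact TPL_fyy h1 hm (by linarith [hyI.1]) (by linarith [hyI.2]) (by linarith [hyI.2])
  exact hmono (left_mem_Icc.2 hab) (right_mem_Icc.2 hab) hab

theorem TPL_fy_nonneg (hy : S_CALy) (h1 : S_N1) {m b : ℝ} (hm : 0 < m) (hb0 : 0 ≤ b)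
    (hb1 : b < 1) (hb2 : b ≤ (2:ℝ) ^ m - 1) : 0 ≤ fy m b := by
  have := TPL_fy_mono hy h1 hm le_rfl hb0 hb1 hb2
  rwa [TPL_fy_zero] at this

theorem TPL_cont (hc : S_CALc) {m a b : ℝ} (hm : 0 < m) (ha : 0 ≤ a) (hb : b ≤ 1) :
    ContinuousOn (fun y => f m y) (Icc a b) :=
  hc (fun _ => m) (fun y => y) a b continuousOn_const continuousOn_id (fun _ _ => hm)
    (fun s hs => by
      rw [abs_of_nonneg (by linarith [hs.1])]
      linarith [hs.2])

/-- tangent lines -/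
theorem TPL_tan (hf : S_CALf) (hy : S_CALy) (hc : S_CALc) (h1 : S_N1) {m a b : ℝ} (hm : 0 < m)
    (ha : 0 ≤ a) (ha1 : a < 1) (ha2 : a ≤ (2:ℝ) ^ m - 1) (hb : 0 ≤ b) (hb1 : b ≤ 1)
    (hb2 : b ≤ (2:ℝ) ^ m - 1) : f m a + fy m a * (b - a) ≤ f m b := by
  rcases lt_trichotomy a b with h | h | h
  · obtain ⟨c, hc1, hc2⟩ := exists_hasDerivAt_eq_slope (fun y => f m y) (fun y => fy m y) h
      (TPL_cont hc hm ha hb1) (fun y hyI => TPL_dy hf hm.le (by
        rw [abs_of_nonneg (by linarith [hyI.1])]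
        linarith [hyI.2]))
    have h3 : fy m a ≤ fy m c := TPL_fy_mono hy h1 hm ha hc1.1.le (by linarith [hc1.2])
      (by linarith [hc1.2])
    have h4 : f m b - f m a = fy m c * (b - a) := by
      rw [hc2]
      field_simp [(sub_pos.2 h).ne']
    nlinarith [mul_le_mul_of_nonneg_right h3 (sub_pos.2 h).le]
  · subst h
    simp
  · obtain ⟨c, hc1, hc2⟩ := exists_hasDerivAt_eq_slope (fun y => f m y) (fun y => fy m y) h
      (TPL_cont hc hm hb ha1.le) (fun y hyI => TPL_dy hf hm.le (by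
        rw [abs_of_nonneg (by linarith [hyI.1])]
        linarith [hyI.2]))
    have h3 : fy m c ≤ fy m a := TPL_fy_mono hy h1 hm (by linarith [hc1.1]) hc1.2.le ha1 ha2
    have h4 : f m a - f m b = fy m c * (a - b) := by
      rw [hc2]
      field_simp [(sub_pos.2 h).ne']
    nlinarith [mul_le_mul_of_nonneg_right h3 (sub_pos.2 h).le]

/-- `f m` is monotone -/
theorem TPL_mono (hf : S_CALf) (hy : S_CALy) (hc : S_CALc) (h1 : S_N1) {m a b : ℝ} (hm : 0 < m)
    (ha : 0 ≤ a) (hab : a ≤ b) (hb1 : b ≤ 1) (hb2 : b ≤ (2:ℝ) ^ m - 1) : f m a ≤ f m b := by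
  rcases eq_or_lt_of_le hab with h | h
  · rw [h]
  · have h2 := TPL_tan hf hy hc h1 hm ha (by linarith) (by linarith) (by linarith) hb1 hb2
    have h3 := TPL_fy_nonneg hy h1 hm ha (by linarith) (by linarith : a ≤ (2:ℝ) ^ m - 1)
    nlinarith [mul_nonneg h3 (sub_pos.2 h).le]

/-! The clock. -/

theorem TPL_E_pos {m : ℝ} (hm : 0 ≤ m) : 0 < E m := by
  unfold E
  have : 0 < Real.sqrt (m + 15) := Real.sqrt_pos.2 (by linarith)
  positivity

theorem TPL_E_cont : Continuous E := by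
  unfold E
  fun_prop

theorem TPL_logb_cont {τ : ℝ} (hτ : 0 < τ) : ContinuousAt (fun s => Real.logb 2 s) τ := by
  unfold Real.logb
  exact (Real.continuousAt_log hτ.ne').div_const _

theorem TPL_EE_deriv {τ : ℝ} (hτ : 0 < τ) : HasDerivAt EE (E (Real.logb 2 τ)) τ := by
  unfold EE
  have hco : ContinuousOn (fun s => E (Real.logb 2 s)) (Ioi 0) := by
    intro s hs
    exact (TPL_E_cont.continuousAt.comp (TPL_logb_cont hs)).continuousWithinAt
  have hint : IntervalIntegrable (fun s => E (Real.logb 2 s)) MeasureTheory.volume 1 τ := by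
    apply ContinuousOn.intervalIntegrable
    apply hco.mono
    intro s hs
    rw [mem_Ioi]
    have := hs.1
    exact lt_of_lt_of_le (lt_min one_pos hτ) this
  apply intervalIntegral.integral_hasDerivAt_right hint
  · exact hco.stronglyMeasurableAtFilter isOpen_Ioi τ hτ
  · exact TPL_E_cont.continuousAt.comp (TPL_logb_cont hτ)

theorem TPL_EE_lt {a b : ℝ} (ha : 1 ≤ a) (hab : a < b) : EE a < EE b := by
  obtain ⟨c, hc1, hc2⟩ := exists_hasDerivAt_eq_slope EE (fun τ => E (Real.logb 2 τ)) hab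
    (fun τ hτ => (TPL_EE_deriv (by linarith [hτ.1])).continuousAt.continuousWithinAt)
    (fun τ hτ => TPL_EE_deriv (by linarith [hτ.1]))
  have h1 : 0 < E (Real.logb 2 c) :=
    TPL_E_pos (Real.logb_nonneg one_lt_two (by linarith [hc1.1]))
  rw [hc2] at h1
  have h2 : 0 < b - a := sub_pos.2 hab
  have h3 := (div_pos_iff_of_pos_right h2).1 h1
  linarith

theorem TPL_logb_deriv {τ : ℝ} (hτ : 0 < τ) : HasDerivAt (fun s => Real.logb 2 s) (cc / τ) τ := by
  unfold Real.logb cc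
  have := (Real.hasDerivAt_log hτ.ne').div_const (Real.log 2)
  refine this.congr_deriv ?_
  rw [inv_eq_one_div, div_div, div_div, mul_comm]

theorem TPL_E_deriv {m : ℝ} (hm : 0 ≤ m) : HasDerivAt E (E m * eps m) m := by
  unfold E eps
  have h1 : HasDerivAt (fun m : ℝ => m + 1) 1 m := (hasDerivAt_id m).add_const 1
  have h2 : HasDerivAt (fun m : ℝ => m + 15) 1 m := (hasDerivAt_id m).add_const 15
  have h3 : HasDerivAt (fun m : ℝ => Real.sqrt (m + 15)) (1 / (2 * Real.sqrt (m + 15))) m :=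
    h2.sqrt (by linarith)
  have h4 := h1.mul h3
  refine h4.congr_deriv ?_
  have h5 : 0 < m + 15 := by linarith
  have h6 : 0 < Real.sqrt (m + 15) := Real.sqrt_pos.2 h5
  have h7 : Real.sqrt (m + 15) ^ 2 = m + 15 := Real.sq_sqrt h5.le
  have h8 : m + 1 ≠ 0 := by linarith
  have h9 : m + 15 = Real.sqrt (m + 15) * Real.sqrt (m + 15) := by rw [← pow_two, h7]
  have h10 : (1:ℝ) / (2 * (m + 15)) = 1 / (2 * (Real.sqrt (m + 15) * Real.sqrt (m + 15))) := by
    rw [← h9]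
  rw [h10]
  field_simp

/-- the main monotonicity: `K = g' / E` -/
theorem TPL_K (hm : S_CALm) (hy : S_CALy) (h1 : S_N1) (Y : ℝ → ℝ) (s a b : ℝ) (hs : 0 ≤ s)
    (hY : ∀ τ, HasDerivAt Y s τ) (_ha : 1 ≤ a)
    (hD : ∀ τ ∈ Ioo a b, 0 < Y τ ∧ Y τ < 1 ∧ Y τ ≤ τ - 1) :
    MonotoneOn (fun τ => (fm (Real.logb 2 τ) (Y τ) * (cc / τ) + fy (Real.logb 2 τ) (Y τ) * s) /
      E (Real.logb 2 τ)) (Ioo a b) := by
  have key : ∀ τ ∈ Ioo a b, ∃ D, 0 ≤ D ∧ HasDerivAt
      (fun τ => (fm (Real.logb 2 τ) (Y τ) * (cc / τ) + fy (Real.logb 2 τ) (Y τ) * s) /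
      E (Real.logb 2 τ)) D τ := by
    intro τ hτ
    obtain ⟨hY0, hY1, hY2⟩ := hD τ hτ
    have hτ1 : 1 < τ := by linarith [hτ.1]
    have hτ0 : 0 < τ := by linarith
    have hmpos : 0 < Real.logb 2 τ := Real.logb_pos one_lt_two hτ1
    have hl := TPL_logb_deriv hτ0
    have hYabs : |Y τ| < 1 := by rwa [abs_of_pos hY0]
    have d1 := hm (fun τ => Real.logb 2 τ) Y (cc / τ) s τ hl (hY τ) hmpos.le hYabs
    have d2 := hy (fun τ => Real.logb 2 τ) Y (cc / τ) s τ hl (hY τ) hmpos.le hYabs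
    have d3 : HasDerivAt (fun τ : ℝ => cc / τ) (-(cc / τ ^ 2)) τ := by
      have := (hasDerivAt_inv hτ0.ne').const_mul cc
      refine (this.congr_deriv ?_)
      rw [mul_neg, ← div_eq_mul_inv]
    have d4 := TPL_E_deriv hmpos.le
    have d5 : HasDerivAt (fun τ => E (Real.logb 2 τ))
        (E (Real.logb 2 τ) * eps (Real.logb 2 τ) * (cc / τ)) τ := d4.comp τ hl
    have d6 := ((d1.mul d3).add (d2.mul_const s)).div d5 (TPL_E_pos hmpos.le).ne'
    refine ⟨_, ?_, d6⟩
    have hEpos := TPL_E_pos hmpos.le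
    have hl2 : 0 < Real.log 2 := Real.log_pos one_lt_two
    have hcc : cc = 1 / Real.log 2 := rfl
    have hn := h1 (Real.logb 2 τ) (Y τ) (s * τ * Real.log 2) hmpos hY0 hY1
      (by rw [Real.rpow_logb two_pos (by norm_num) hτ0]; exact hY2) (by positivity)
    apply div_nonneg _ (by positivity)
    simp only [Pi.add_apply, Pi.mul_apply] at *
    have hcalc : ∀ (e1 E1 FM FY FMM FMY FYY L : ℝ), L ≠ 0 → cc = 1 / L →
      ((((FMM * (cc / τ) + FMY * s) * (cc / τ) + FM * -(cc / τ ^ 2)) +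
        (FMY * (cc / τ) + FYY * s) * s) * E1 -
        (FM * (cc / τ) + FY * s) * (E1 * e1 * (cc / τ))) =
      E1 * (cc / τ) ^ 2 * (FYY * (s * τ * L) ^ 2 + 2 * (FMY - e1 / 2 * FY) * (s * τ * L)
        + (FMM - (L + e1) * FM)) := by
      intro e1 E1 FM FY FMM FMY FYY L hL hccL
      rw [hccL]
      field_simp
      ring
    have hc2 := hcalc (eps (Real.logb 2 τ)) (E (Real.logb 2 τ)) (fm (Real.logb 2 τ) (Y τ))
      (fy (Real.logb 2 τ) (Y τ)) (fmm (Real.logb 2 τ) (Y τ)) (fmy (Real.logb 2 τ) (Y τ))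
      (fyy (Real.logb 2 τ) (Y τ)) (Real.log 2) hl2.ne' hcc
    rw [hc2]
    have hccpos : 0 < cc := by rw [hcc]; positivity
    positivity
  apply monotoneOn_of_deriv_nonneg (convex_Ioo a b)
  · intro τ hτ
    obtain ⟨D, _, hD⟩ := key τ hτ
    exact hD.continuousAt.continuousWithinAt
  · intro τ hτ
    rw [interior_Ioo] at hτ
    obtain ⟨D, _, hD⟩ := key τ hτ
    exact hD.differentiableAt.differentiableWithinAt
  · intro τ hτ
    rw [interior_Ioo] at hτ
    obtain ⟨D, hD0, hD⟩ := key τ hτ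
    rw [hD.deriv]
    exact hD0


/-! The points `t_+ < t < t_-`. -/

theorem TPL_tt_pos (m : ℝ) : 0 < tt m := Real.rpow_pos_of_pos two_pos m

theorem TPL_logb_tt (m : ℝ) : Real.logb 2 (tt m) = m := Real.logb_rpow two_pos (by norm_num)

theorem TPL_logb_tp {m x : ℝ} (hx : 0 < 1 + x) : Real.logb 2 (tp m x) = mp m x := by
  unfold tp mp lp
  rw [Real.logb_div (Real.rpow_pos_of_pos two_pos m).ne' hx.ne', Real.logb_rpow two_pos (by norm_num)]

theorem TPL_logb_tm {m x : ℝ} (hx : 0 < 1 - x) : Real.logb 2 (tm m x) = mn m x := by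
  unfold tm mn lm
  rw [Real.logb_div (Real.rpow_pos_of_pos two_pos m).ne' hx.ne', Real.logb_rpow two_pos (by norm_num)]

theorem TPL_tp_pos {m x : ℝ} (hx : 0 < 1 + x) : 0 < tp m x :=
  div_pos (Real.rpow_pos_of_pos two_pos m) hx

theorem TPL_tm_pos {m x : ℝ} (hx : 0 < 1 - x) : 0 < tm m x :=
  div_pos (Real.rpow_pos_of_pos two_pos m) hx

theorem TPL_two_mp {m x : ℝ} (hx : 0 < 1 + x) : (2:ℝ) ^ (mp m x) = tp m x := by
  rw [← TPL_logb_tp hx, Real.rpow_logb two_pos (by norm_num) (TPL_tp_pos hx)]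

theorem TPL_two_mn {m x : ℝ} (hx : 0 < 1 - x) : (2:ℝ) ^ (mn m x) = tm m x := by
  rw [← TPL_logb_tm hx, Real.rpow_logb two_pos (by norm_num) (TPL_tm_pos hx)]

theorem TPL_tp_mul {m x : ℝ} (hx : 0 < 1 + x) : tp m x * (1 + x) = tt m :=
  div_mul_cancel₀ _ hx.ne'

theorem TPL_tm_mul {m x : ℝ} (hx : 0 < 1 - x) : tm m x * (1 - x) = tt m :=
  div_mul_cancel₀ _ hx.ne'

/-- case (A) -/
theorem TPL_A (hf : S_CALf) (hm : S_CALm) (hy : S_CALy) (hc : S_CALc) (h1 : S_N1)
    (m x u v : ℝ) (hx0 : 0 < x) (hx1 : x < 1) (hxm : x ≤ (2:ℝ) ^ m - 1)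
    (hu0 : 0 ≤ u) (huv : u ≤ v) (hu : u ≤ (2:ℝ) ^ (mp m x) - 1) (hv1 : v ≤ 1)
    (hv : v ≤ (2:ℝ) ^ (mn m x) - 1) (hyx : (1 + x) / 2 * u + (1 - x) / 2 * v ≤ x) :
    f m ((1 + x) / 2 * u + (1 - x) / 2 * v) ≤ wp m x * f (mp m x) u + wn m x * f (mn m x) v := by
  have hxp : 0 < 1 + x := by linarith
  have hxn : 0 < 1 - x := by linarith
  rw [TPL_two_mp hxp] at hu
  rw [TPL_two_mn hxn] at hv
  have hta := TPL_tp_mul (m := m) hxp
  have htb := TPL_tm_mul (m := m) hxn
  have htx : 1 + x ≤ tt m := by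
    have : tt m = (2:ℝ) ^ m := rfl
    linarith
  obtain ⟨t, ht⟩ : ∃ t, t = tt m := ⟨_, rfl⟩
  obtain ⟨a, haE⟩ : ∃ a, a = tp m x := ⟨_, rfl⟩
  obtain ⟨b, hbE⟩ : ∃ b, b = tm m x := ⟨_, rfl⟩
  rw [← ht, ← haE] at hta
  rw [← ht, ← hbE] at htb
  rw [← ht] at htx
  rw [← haE] at hu
  rw [← hbE] at hv
  have ha1 : 1 ≤ a := by
    by_contra h
    push Not at h
    nlinarith
  have hat : a < t := by nlinarith
  have htbl : t < b := by
    have hb0 : 0 < b := by rw [hbE]; exact TPL_tm_pos hxn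
    nlinarith
  have hab : a < b := hat.trans htbl
  have hba : 0 < b - a := sub_pos.2 hab
  -- weights
  have hwp : wp m x = (EE b - EE t) / (EE b - EE a) := by rw [ht, haE, hbE]; rfl
  have hwn : wn m x = (EE t - EE a) / (EE b - EE a) := by rw [ht, haE, hbE]; rfl
  have hla : Real.logb 2 a = mp m x := by rw [haE]; exact TPL_logb_tp hxp
  have hlb : Real.logb 2 b = mn m x := by rw [hbE]; exact TPL_logb_tm hxn
  have hlt : Real.logb 2 t = m := by rw [ht]; exact TPL_logb_tt m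
  have hP : 0 < EE t - EE a := sub_pos.2 (TPL_EE_lt ha1 hat)
  have hQ : 0 < EE b - EE t := sub_pos.2 (TPL_EE_lt (by linarith) htbl)
  rcases eq_or_lt_of_le (hu0.trans huv) with hv0 | hv0
  · have hu00 : u = 0 := by linarith
    rw [← hv0, hu00]
    simp [TPL_f_zero]
  obtain ⟨s, hs⟩ : ∃ s, s = (v - u) / (b - a) := ⟨_, rfl⟩
  have hsmul : s * (b - a) = v - u := by rw [hs]; exact div_mul_cancel₀ _ hba.ne'
  have hs0 : 0 ≤ s := by rw [hs]; exact div_nonneg (by linarith) hba.le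
  obtain ⟨Y, hYdef⟩ : ∃ Y : ℝ → ℝ, Y = fun τ => u + s * (τ - a) := ⟨_, rfl⟩
  have hYv : ∀ τ, Y τ = u + s * (τ - a) := fun τ => by rw [hYdef]
  have hYm : ∀ τ, Y τ * (b - a) = (b - τ) * u + (τ - a) * v := by
    intro τ
    rw [hYv]
    linear_combination (τ - a) * hsmul
  have hYd : ∀ τ, HasDerivAt Y s τ := by
    intro τ
    rw [hYdef]
    have := (((hasDerivAt_id τ).sub_const a).const_mul s).const_add u
    simpa using this
  have hYa : Y a = u := by rw [hYv]; ring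
  have hYb : Y b = v := by rw [hYv]; linear_combination hsmul
  have hta2 : t - a = (1 - x) / 2 * (b - a) := by
    linear_combination (-1 / 2) * hta - (1 / 2) * htb
  have hYt : Y t = (1 + x) / 2 * u + (1 - x) / 2 * v := by
    rw [hYv, hta2]
    linear_combination (1 - x) / 2 * hsmul
  have hu1 : u < 1 := by nlinarith
  have hpos : ∀ τ, a ≤ τ → τ ≤ b → 0 ≤ Y τ := by
    intro τ h2 h3
    have h4 : 0 ≤ Y τ * (b - a) := by
      rw [hYm]
      have := mul_nonneg (sub_nonneg.2 h3) hu0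
      have := mul_nonneg (sub_nonneg.2 h2) hv0.le
      linarith
    exact nonneg_of_mul_nonneg_left h4 hba
  have hlt1 : ∀ τ, a ≤ τ → τ < b → Y τ < 1 := by
    intro τ h2 h3
    have h4 : Y τ * (b - a) < 1 * (b - a) := by
      rw [hYm]
      have := mul_lt_mul_of_pos_left hu1 (sub_pos.2 h3)
      have := mul_le_mul_of_nonneg_left hv1 (sub_nonneg.2 h2)
      linarith
    exact lt_of_mul_lt_mul_right h4 hba.le
  have hle1 : ∀ τ, a ≤ τ → τ ≤ b → Y τ ≤ 1 := by
    intro τ h2 h3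
    rcases eq_or_lt_of_le h3 with h | h
    · rw [h, hYb]; exact hv1
    · exact (hlt1 τ h2 h).le
  have hD : ∀ τ ∈ Ioo a b, 0 < Y τ ∧ Y τ < 1 ∧ Y τ ≤ τ - 1 := by
    intro τ hτ
    refine ⟨?_, hlt1 τ hτ.1.le hτ.2, ?_⟩
    · have h4 : 0 < Y τ * (b - a) := by
        rw [hYm]
        have := mul_nonneg (sub_nonneg.2 hτ.2.le) hu0
        have := mul_pos (sub_pos.2 hτ.1) hv0
        linarith
      exact pos_of_mul_pos_left h4 hba.le
    · have h4 : Y τ * (b - a) ≤ (τ - 1) * (b - a) := by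
        rw [hYm]
        have := mul_le_mul_of_nonneg_left hu (sub_nonneg.2 hτ.2.le)
        have := mul_le_mul_of_nonneg_left hv (sub_nonneg.2 hτ.1.le)
        linarith
      exact le_of_mul_le_mul_right h4 hba
  have hK := TPL_K hm hy h1 Y s a b hs0 hYd ha1 hD
  have hgd : ∀ τ, a ≤ τ → τ < b → HasDerivAt (fun τ => f (Real.logb 2 τ) (Y τ))
      (fm (Real.logb 2 τ) (Y τ) * (cc / τ) + fy (Real.logb 2 τ) (Y τ) * s) τ := by
    intro τ h2 h3
    exact hf (fun τ => Real.logb 2 τ) Y (cc / τ) s τ (TPL_logb_deriv (by linarith)) (hYd τ)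
      (Real.logb_nonneg one_lt_two (by linarith))
      (by rw [abs_of_nonneg (hpos τ h2 h3.le)]; exact hlt1 τ h2 h3)
  have hEd : ∀ τ, a ≤ τ → HasDerivAt EE (E (Real.logb 2 τ)) τ := fun τ h2 =>
    TPL_EE_deriv (by linarith)
  obtain ⟨c1, hc1, hc1'⟩ := exists_ratio_hasDerivAt_eq_ratio_slope
    (fun τ => f (Real.logb 2 τ) (Y τ))
    (fun τ => fm (Real.logb 2 τ) (Y τ) * (cc / τ) + fy (Real.logb 2 τ) (Y τ) * s) hat
    (fun τ hτ => (hgd τ hτ.1 (lt_of_le_of_lt hτ.2 htbl)).continuousAt.continuousWithinAt)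
    (fun τ hτ => hgd τ hτ.1.le (hτ.2.trans htbl)) EE (fun τ => E (Real.logb 2 τ))
    (fun τ hτ => (hEd τ hτ.1).continuousAt.continuousWithinAt)
    (fun τ hτ => hEd τ hτ.1.le)
  obtain ⟨c2, hc2, hc2'⟩ := exists_ratio_hasDerivAt_eq_ratio_slope
    (fun τ => f (Real.logb 2 τ) (Y τ))
    (fun τ => fm (Real.logb 2 τ) (Y τ) * (cc / τ) + fy (Real.logb 2 τ) (Y τ) * s) htbl
    (hc (fun τ => Real.logb 2 τ) Y t b
      (fun τ hτ => (TPL_logb_cont (by linarith [hτ.1])).continuousWithinAt)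
      (fun τ _ => (hYd τ).continuousAt.continuousWithinAt)
      (fun τ hτ => Real.logb_pos one_lt_two (by linarith [hτ.1]))
      (fun τ hτ => by
        rw [abs_of_nonneg (hpos τ (by linarith [hτ.1]) hτ.2)]
        exact hle1 τ (by linarith [hτ.1]) hτ.2))
    (fun τ hτ => hgd τ (by linarith [hτ.1]) hτ.2) EE (fun τ => E (Real.logb 2 τ))
    (fun τ hτ => (hEd τ (by linarith [hτ.1])).continuousAt.continuousWithinAt)
    (fun τ hτ => hEd τ (by linarith [hτ.1]))
  have hK12 := hK (⟨hc1.1, hc1.2.trans htbl⟩ : c1 ∈ Ioo a b)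
    (⟨hat.trans hc2.1, hc2.2⟩ : c2 ∈ Ioo a b) (hc1.2.trans hc2.1).le
  simp only at hK12 hc1' hc2'
  have hE1 : 0 < E (Real.logb 2 c1) :=
    TPL_E_pos (Real.logb_nonneg one_lt_two (by linarith [hc1.1]))
  have hE2 : 0 < E (Real.logb 2 c2) :=
    TPL_E_pos (Real.logb_nonneg one_lt_two (by linarith [hc2.1]))
  rw [hlt, hYt, hla, hYa] at hc1'
  rw [hlt, hYt, hlb, hYb] at hc2'
  rw [hwp, hwn]
  generalize fm (Real.logb 2 c1) (Y c1) * (cc / c1) + fy (Real.logb 2 c1) (Y c1) * s = G1 at *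
  generalize fm (Real.logb 2 c2) (Y c2) * (cc / c2) + fy (Real.logb 2 c2) (Y c2) * s = G2 at *
  generalize f m ((1 + x) / 2 * u + (1 - x) / 2 * v) = g0 at *
  generalize f (mp m x) u = ga at *
  generalize f (mn m x) v = gb at *
  generalize E (Real.logb 2 c1) = E1 at *
  generalize E (Real.logb 2 c2) = E2 at *
  have hk1 : g0 - ga = (EE t - EE a) * (G1 / E1) := by
    rw [← mul_div_assoc, hc1']
    field_simp
  have hk2 : gb - g0 = (EE b - EE t) * (G2 / E2) := by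
    rw [← mul_div_assoc, hc2']
    field_simp
  have hPQ : 0 < EE b - EE a := by linarith
  rw [← sub_nonneg]
  have hfin : (EE b - EE t) / (EE b - EE a) * ga + (EE t - EE a) / (EE b - EE a) * gb - g0 =
      (EE t - EE a) * (EE b - EE t) * (G2 / E2 - G1 / E1) / (EE b - EE a) := by
    have h3 : (EE b - EE t) / (EE b - EE a) * ga + (EE t - EE a) / (EE b - EE a) * gb - g0 =
      ((EE t - EE a) * (gb - g0) - (EE b - EE t) * (g0 - ga)) / (EE b - EE a) := by
      field_simp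
      ring
    rw [h3, hk1, hk2]
    ring
  rw [hfin]
  apply div_nonneg _ hPQ.le
  apply mul_nonneg (mul_nonneg hP.le hQ.le)
  linarith

/-- the two point lemma for `y₀ ≥ 0` -/
theorem TPL_pos (hf : S_CALf) (hm : S_CALm) (hy : S_CALy) (hc : S_CALc) (h1 : S_N1) (h2 : S_C2)
    (m x u v : ℝ) (hm0 : 0 < m) (hx0 : 0 < x) (hx1 : x < 1) (hxm : x ≤ (2:ℝ) ^ m - 1)
    (hu1 : |u| ≤ 1) (hu : |u| ≤ (2:ℝ) ^ (mp m x) - 1) (hv1 : |v| ≤ 1)
    (hv : |v| ≤ (2:ℝ) ^ (mn m x) - 1)
    (hy0 : 0 ≤ (1 + x) / 2 * u + (1 - x) / 2 * v)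
    (hyx : (1 + x) / 2 * u + (1 - x) / 2 * v ≤ x) :
    f m ((1 + x) / 2 * u + (1 - x) / 2 * v) ≤
      wp m x * f (mp m x) |u| + wn m x * f (mn m x) |v| := by
  have hxp : 0 < 1 + x := by linarith
  have hxn : 0 < 1 - x := by linarith
  have hta := TPL_tp_mul (m := m) hxp
  have htb := TPL_tm_mul (m := m) hxn
  have htx : 1 + x ≤ tt m := by
    have : tt m = (2:ℝ) ^ m := rfl
    linarith
  have ha1 : 1 ≤ tp m x := by
    by_contra h
    push Not at h
    nlinarith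
  have hat : tp m x < tt m := by nlinarith
  have htbl : tt m < tm m x := by
    have hb0 : 0 < tm m x := TPL_tm_pos hxn
    nlinarith
  have hP : 0 < EE (tt m) - EE (tp m x) := sub_pos.2 (TPL_EE_lt ha1 hat)
  have hQ : 0 < EE (tm m x) - EE (tt m) := sub_pos.2 (TPL_EE_lt (by linarith) htbl)
  have hPQ : 0 < EE (tm m x) - EE (tp m x) := by linarith
  have hwp0 : 0 ≤ wp m x := div_nonneg hQ.le hPQ.le
  have hwn0 : 0 ≤ wn m x := div_nonneg hP.le hPQ.le
  have hmn0 : 0 < mn m x := by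
    rw [← TPL_logb_tm hxn]
    exact Real.logb_pos one_lt_two (by linarith)
  rcases le_or_gt u v with huv | huv
  · rcases le_or_gt 0 u with hu0 | hu0
    · -- case (A)
      rw [abs_of_nonneg hu0] at hu hu1 ⊢
      rw [abs_of_nonneg (hu0.trans huv)] at hv hv1 ⊢
      exact TPL_A hf hm hy hc h1 m x u v hx0 hx1 hxm hu0 huv hu hv1 hv hyx
    · -- case (B)
      have hv0 : 0 ≤ v := by
        by_contra h
        push Not at h
        nlinarith
      obtain ⟨v1, hv1E⟩ : ∃ v1, v1 = ((1 + x) / 2 * u + (1 - x) / 2 * v) / ((1 - x) / 2) :=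
        ⟨_, rfl⟩
      have hv1m : (1 - x) / 2 * v1 = (1 + x) / 2 * u + (1 - x) / 2 * v := by
        rw [hv1E]
        field_simp
      have hv10 : 0 ≤ v1 := by
        rw [hv1E]
        exact div_nonneg hy0 (by linarith)
      have hv1v : v1 ≤ v := by nlinarith
      rw [abs_of_nonneg hv0] at hv hv1 ⊢
      have hmp0 : 0 < mp m x := by
        rw [abs_of_neg hu0, TPL_two_mp hxp] at hu
        rw [← TPL_logb_tp hxp]
        exact Real.logb_pos one_lt_two (by linarith)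
      have h3 : 0 ≤ f (mp m x) |u| := by
        have := TPL_mono hf hy hc h1 hmp0 le_rfl (abs_nonneg u) hu1 hu
        rwa [TPL_f_zero] at this
      have h4 : f (mn m x) v1 ≤ f (mn m x) v :=
        TPL_mono hf hy hc h1 hmn0 hv10 hv1v hv1 hv
      have h5 := TPL_A hf hm hy hc h1 m x 0 v1 hx0 hx1 hxm le_rfl hv10
        (by rw [TPL_two_mp hxp]; linarith) (by linarith) (by linarith)
        (by rw [mul_zero, zero_add, hv1m]; exact hyx)
      rw [mul_zero, zero_add, hv1m, TPL_f_zero, mul_zero, zero_add] at h5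
      have h6 := mul_nonneg hwp0 h3
      have h7 := mul_le_mul_of_nonneg_left h4 hwn0
      linarith
  · -- case (C)
    have hu0 : 0 < u := by
      by_contra h
      push Not at h
      nlinarith
    rw [abs_of_pos hu0] at hu hu1 ⊢
    obtain ⟨y0, hyE⟩ : ∃ y0, y0 = (1 + x) / 2 * u + (1 - x) / 2 * v := ⟨_, rfl⟩
    rw [← hyE] at hy0 hyx ⊢
    have hyu : y0 < u := by nlinarith
    have hyv : v < y0 := by nlinarith
    have hmp0 : 0 < mp m x := by
      rw [TPL_two_mp hxp] at hu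
      rw [← TPL_logb_tp hxp]
      exact Real.logb_pos one_lt_two (by linarith)
    have hy1 : y0 < 1 := by linarith
    have hyn : y0 ≤ (2:ℝ) ^ (mn m x) - 1 := by
      rw [TPL_two_mn hxn]
      rw [TPL_two_mp hxp] at hu
      linarith
    have hyp : y0 ≤ (2:ℝ) ^ (mp m x) - 1 := by linarith
    have hA := TPL_A hf hm hy hc h1 m x y0 y0 hx0 hx1 hxm hy0 le_rfl hyp hy1.le hyn
      (by linarith)
    have hyy : (1 + x) / 2 * y0 + (1 - x) / 2 * y0 = y0 := by ring
    rw [hyy] at hA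
    have hT1 := TPL_tan hf hy hc h1 hmp0 hy0 hy1 hyp hu0.le hu1 hu
    have hT2 := TPL_tan hf hy hc h1 hmn0 hy0 hy1 hyn (abs_nonneg v) hv1 hv
    have hfn : 0 ≤ fy (mn m x) y0 := TPL_fy_nonneg hy h1 hmn0 hy0 hy1 hyn
    have hT3 : fy (mn m x) y0 * (v - y0) ≤ fy (mn m x) y0 * (|v| - y0) :=
      mul_le_mul_of_nonneg_left (by linarith [le_abs_self v]) hfn
    -- slopes
    have hS : wn m x * ((1 + x) / 2) * fy (mn m x) y0 ≤ wp m x * ((1 - x) / 2) * fy (mp m x) y0 := by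
      rcases eq_or_lt_of_le hy0 with h | h
      · rw [← h, TPL_fy_zero, TPL_fy_zero]
        simp
      · have hC := h2 m x y0 hm0 hx0 hx1 hxm h hyx hyp
        have htt := TPL_tt_pos m
        have e1 : tt m - tp m x = tt m * x / (1 + x) := by
          rw [eq_div_iff hxp.ne']
          linear_combination -hta
        have e2 : tm m x - tt m = tt m * x / (1 - x) := by
          rw [eq_div_iff hxn.ne']
          linear_combination htb
        have hw1 : wn m x * ((1 + x) / 2) = (EE (tt m) - EE (tp m x)) / (tt m - tp m x) *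
            (tt m * x / 2 / (EE (tm m x) - EE (tp m x))) := by
          unfold wn
          rw [e1]
          field_simp
        have hw2 : wp m x * ((1 - x) / 2) = (EE (tm m x) - EE (tt m)) / (tm m x - tt m) *
            (tt m * x / 2 / (EE (tm m x) - EE (tp m x))) := by
          unfold wp
          rw [e2]
          field_simp
        have hpos : 0 ≤ tt m * x / 2 / (EE (tm m x) - EE (tp m x)) := by positivity
        have h9 := mul_le_mul_of_nonneg_right hC hpos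
        rw [hw1, hw2]
        calc _ = (EE (tt m) - EE (tp m x)) / (tt m - tp m x) * fy (mn m x) y0 *
              (tt m * x / 2 / (EE (tm m x) - EE (tp m x))) := by ring
          _ ≤ _ := h9
          _ = _ := by ring
    have hM1 := mul_le_mul_of_nonneg_left hT1 hwp0
    have hM2 := mul_le_mul_of_nonneg_left (show f (mn m x) y0 + fy (mn m x) y0 * (v - y0) ≤
      f (mn m x) |v| by linarith) hwn0
    have e3 : u - y0 = (1 - x) / 2 * (u - v) := by rw [hyE]; ring
    have e4 : v - y0 = -((1 + x) / 2 * (u - v)) := by rw [hyE]; ring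
    rw [e3] at hM1
    rw [e4] at hM2
    have hS2 := mul_le_mul_of_nonneg_right hS (sub_pos.2 huv).le
    have e5 : wp m x * (f (mp m x) y0 + fy (mp m x) y0 * ((1 - x) / 2 * (u - v))) =
      wp m x * f (mp m x) y0 + wp m x * ((1 - x) / 2) * fy (mp m x) y0 * (u - v) := by ring
    have e6 : wn m x * (f (mn m x) y0 + fy (mn m x) y0 * -((1 + x) / 2 * (u - v))) =
      wn m x * f (mn m x) y0 - wn m x * ((1 + x) / 2) * fy (mn m x) y0 * (u - v) := by ring
    rw [e5] at hM1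
    rw [e6] at hM2
    linarith

/-- the two point lemma -/
theorem TPL_proved (hf : S_CALf) (hm : S_CALm) (hy : S_CALy) (hc : S_CALc) (h1 : S_N1)
    (h2 : S_C2) : S_TPL := by
  intro m x u v hm0 hx0 hx1 hxm hu1 hu hv1 hv hyx
  rcases le_or_gt 0 ((1 + x) / 2 * u + (1 - x) / 2 * v) with h | h
  · rw [abs_of_nonneg h] at hyx ⊢
    exact TPL_pos hf hm hy hc h1 h2 m x u v hm0 hx0 hx1 hxm hu1 hu hv1 hv h hyx
  · rw [abs_of_neg h] at hyx ⊢
    have e : -((1 + x) / 2 * u + (1 - x) / 2 * v) = (1 + x) / 2 * (-u) + (1 - x) / 2 * (-v) := by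
      ring
    rw [e] at hyx ⊢
    have := TPL_pos hf hm hy hc h1 h2 m x (-u) (-v) hm0 hx0 hx1 hxm (by rwa [abs_neg])
      (by rwa [abs_neg]) (by rwa [abs_neg]) (by rwa [abs_neg]) (by rw [← e]; linarith) hyx
    rwa [abs_neg, abs_neg] at this

end Pool.MP324
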